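import Mathlib

/-!
Programmed grammars without appearance checking (definitions only).
-/

namespace Pool.Agent.Lib.MP_67c3d0_lc

/-- A programmed grammar without appearance checking over the terminal symbols `T`:
a finite set `N` of nonterminals, a finite set `L` of labels, a start symbol, and for each label
`r` one rule `lhs r → rhs r` with success field `succ r`. -/
structure PG (T : Type) : Type 1 where
  N : Type
  L : Type
  finN : Fintype N
  finL : Fintype L
  start : N
  lhs : L → N
  rhs : L → List (Symbol T N)
  succ : L → Finset L

variable {T : Type}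

/-- One derivation step `(u, r) ⇒ (v, q)`. -/
def PG.Step (G : PG T) (c d : List (Symbol T G.N) × G.L) : Prop :=
  ∃ u₁ u₂ : List (Symbol T G.N),
    c.1 = u₁ ++ [Symbol.nonterminal (G.lhs c.2)] ++ u₂ ∧
    d.1 = u₁ ++ G.rhs c.2 ++ u₂ ∧ d.2 ∈ G.succ c.2

/-- The generated language. -/
def PG.language (G : PG T) : Set (List T) :=
  {w | ∃ p q : G.L, Relation.ReflTransGen G.Step
    ([Symbol.nonterminal G.start], p) (w.map Symbol.terminal, q)}

/-- No rule has an empty right-hand side. -/
def PG.Propagating (G : PG T) : Prop :=
  ∀ r : G.L, G.rhs r ≠ []

/-- One-ND rule normal form: at most one rule has a success field with two or more labels. -/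
def PG.OneND (G : PG T) : Prop :=
  ∀ r r' : G.L, 2 ≤ (G.succ r).card → 2 ≤ (G.succ r').card → r = r'

/-- Overall non-determinism: the sum of the sizes of the success fields of size at least two. -/
def PG.ond (G : PG T) : ℕ :=
  ∑ r ∈ @Finset.univ G.L G.finL, if 2 ≤ (G.succ r).card then (G.succ r).card else 0

/-- The family of languages generated by propagating programmed grammars. -/
def propFamily (T : Type) : Set (Set (List T)) :=
  {K | ∃ G : PG T, G.Propagating ∧ G.language = K}

/-- The least overall non-determinism of a propagating programmed grammar generating `K`. -/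
noncomputable def ondLang (K : Set (List T)) : ℕ :=
  sInf {m | ∃ G : PG T, G.Propagating ∧ G.language = K ∧ G.ond = m}

/-- The family `OND(P^{-ε}, n)`. -/
def OND (T : Type) (n : ℕ) : Set (Set (List T)) :=
  {K | K ∈ propFamily T ∧ ondLang K ≤ n}

end Pool.Agent.Lib.MP_67c3d0_lc
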