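import Pool.Agent.Lib.MP_67c3d0_lc.Defs

/-!
The overall non-determinism hierarchy of propagating programmed grammars is strict.
-/

namespace Pool.Agent.Lib.MP_67c3d0_lc

open Relation

variable {T : Type}

/-- The witness language: nonempty powers of one of the letters `ι i`. -/
def wit {n : ℕ} (ι : Fin n ↪ T) : Set (List T) :=
  {w | w ≠ [] ∧ ∃ i, ∀ a ∈ w, a = ι i}

/-! ### Upper bound -/

/-- The grammar `x : S → S S` with all labels as successors, `f i : S → a i` with successor
`f i`. -/
@[reducible] def witG {n : ℕ} (ι : Fin n ↪ T) : PG T where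
  N := Unit
  L := Option (Fin n)
  finN := inferInstance
  finL := inferInstance
  start := ()
  lhs := fun _ => ()
  rhs := fun l => match l with
    | none => [Symbol.nonterminal (), Symbol.nonterminal ()]
    | some i => [Symbol.terminal (ι i)]
  succ := fun l => match l with
    | none => Finset.univ
    | some i => {some i}

lemma witG_prop {n : ℕ} (ι : Fin n ↪ T) : (witG ι).Propagating := by
  intro l
  cases l <;> simp

lemma witG_ond {n : ℕ} (hn : 1 ≤ n) (ι : Fin n ↪ T) : (witG ι).ond = n + 1 := by
  unfold PG.ond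
  rw [Fintype.sum_option]
  simp
  omega

lemma witG_inv {n : ℕ} (ι : Fin n ↪ T) {p : Option (Fin n)}
    {c : List (Symbol T Unit) × Option (Fin n)}
    (h : ReflTransGen (witG ι).Step ([Symbol.nonterminal ()], p) c) :
    c.1 ≠ [] ∧ ((∀ s ∈ c.1, s = Symbol.nonterminal ()) ∨
      ∃ i, c.2 = some i ∧ ∀ s ∈ c.1, s = Symbol.nonterminal () ∨ s = Symbol.terminal (ι i)) := by
  induction h with
  | refl => simp
  | @tail b c _ hs ih =>
    obtain ⟨u₁, u₂, hu, hv, hq⟩ := hs
    obtain ⟨u, l⟩ := b
    obtain ⟨v, l'⟩ := c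
    simp only at hu hv hq ih ⊢
    subst hu hv
    cases l with
    | none =>
      refine ⟨by simp, Or.inl ?_⟩
      rcases ih.2 with h | ⟨i, hi, -⟩
      · intro s hs
        simp only [List.mem_append, List.mem_cons, List.not_mem_nil, or_false, or_self] at hs
        rcases hs with (hs | hs) | hs
        · exact h s (by simp [hs])
        · exact hs
        · exact h s (by simp [hs])
      · simp at hi
    | some i =>
      have hl : l' = some i := by simpa using hq
      refine ⟨by simp, Or.inr ⟨i, hl, ?_⟩⟩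
      have h : ∀ s ∈ u₁ ++ [Symbol.nonterminal ()] ++ u₂,
          s = Symbol.nonterminal () ∨ s = Symbol.terminal (ι i) := by
        rcases ih.2 with h | ⟨j, hj, h⟩
        · exact fun s hs => Or.inl (h s hs)
        · obtain rfl : i = j := by simpa using hj
          exact h
      intro s hs
      simp only [List.mem_append, List.mem_cons, List.not_mem_nil, or_false] at hs
      rcases hs with (hs | hs) | hs
      · exact h s (by simp [hs])
      · exact Or.inr hs
      · exact h s (by simp [hs])

lemma witG_grow {n : ℕ} (ι : Fin n ↪ T) (k : ℕ) (l : Option (Fin n)) :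
    ∃ p, ReflTransGen (witG ι).Step ([Symbol.nonterminal ()], p)
      (List.replicate (k + 1) (Symbol.nonterminal ()), l) := by
  induction k generalizing l with
  | zero => exact ⟨l, ReflTransGen.refl⟩
  | succ k ih =>
    obtain ⟨p, hp⟩ := ih none
    refine ⟨p, hp.tail ⟨[], List.replicate k (Symbol.nonterminal ()), ?_, ?_, by simp⟩⟩
    · simp [List.replicate_succ]
    · simp [List.replicate_succ]

lemma witG_fin {n : ℕ} (ι : Fin n ↪ T) (i : Fin n) (m j : ℕ) :
    ReflTransGen (witG ι).Step
      (List.replicate j (Symbol.terminal (ι i)) ++ List.replicate m (Symbol.nonterminal ()),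
        some i)
      (List.replicate (j + m) (Symbol.terminal (ι i)), some i) := by
  induction m generalizing j with
  | zero => simpa using ReflTransGen.refl
  | succ m ih =>
    refine ReflTransGen.head (b := (List.replicate (j + 1) (Symbol.terminal (ι i)) ++
      List.replicate m (Symbol.nonterminal ()), some i))
      ⟨List.replicate j (Symbol.terminal (ι i)), List.replicate m (Symbol.nonterminal ()),
        ?_, ?_, by simp⟩ ?_
    · simp [List.replicate_succ]
    · simp [List.replicate_succ']
    · have := ih (j + 1)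
      rwa [show j + 1 + m = j + (m + 1) by ring] at this

lemma witG_language {n : ℕ} (ι : Fin n ↪ T) : (witG ι).language = wit ι := by
  ext w
  constructor
  · rintro ⟨p, q, h⟩
    obtain ⟨h1, h2⟩ := witG_inv ι h
    have hw : w ≠ [] := by simpa using h1
    refine ⟨hw, ?_⟩
    rcases h2 with h2 | ⟨i, -, h2⟩
    · obtain ⟨a, t, rfl⟩ := List.exists_cons_of_ne_nil hw
      simpa using h2 (Symbol.terminal a) (by simp)
    · refine ⟨i, fun a ha => ?_⟩
      simpa using h2 (Symbol.terminal a) (List.mem_map.2 ⟨a, ha, rfl⟩)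
  · rintro ⟨hw, i, hi⟩
    obtain ⟨k, hk⟩ : ∃ k, w.length = k + 1 :=
      Nat.exists_eq_succ_of_ne_zero (by simpa using hw)
    have hw' : w = List.replicate (k + 1) (ι i) := List.eq_replicate_iff.2 ⟨hk, hi⟩
    obtain ⟨p, hp⟩ := witG_grow ι k (some i)
    refine ⟨p, some i, hp.trans ?_⟩
    have := witG_fin ι i (k + 1) 0
    simpa [hw'] using this

/-! ### Derivations as sequences -/

/-- `d` is a derivation of `w` with `k` steps. -/
def IsDer (G : PG T) (w : List T) (k : ℕ) (d : ℕ → List (Symbol T G.N) × G.L) : Prop :=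
  (d 0).1 = [Symbol.nonterminal G.start] ∧ (∀ j < k, G.Step (d j) (d (j + 1))) ∧
    (d k).1 = w.map Symbol.terminal

lemma exists_seq {α : Type} {r : α → α → Prop} {a b : α} (h : ReflTransGen r a b) :
    ∃ (k : ℕ) (d : ℕ → α), d 0 = a ∧ d k = b ∧ ∀ j < k, r (d j) (d (j + 1)) := by
  induction h with
  | refl => exact ⟨0, fun _ => a, rfl, rfl, by simp⟩
  | @tail b c _ hs ih =>
    obtain ⟨k, d, h0, hk, hd⟩ := ih
    refine ⟨k + 1, fun j => if j ≤ k then d j else c, by simp [h0], by simp, ?_⟩
    intro j hj
    have hj' : j ≤ k := by omega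
    by_cases h : j + 1 ≤ k
    · simp only [hj', h, if_true]
      exact hd j (by omega)
    · obtain rfl : j = k := by omega
      simp only [hj', h, if_true, if_false]
      rwa [hk]

lemma exists_isDer {G : PG T} {w : List T} (h : w ∈ G.language) : ∃ k d, IsDer G w k d := by
  obtain ⟨p, q, h⟩ := h
  obtain ⟨k, d, h0, hk, hd⟩ := exists_seq h
  exact ⟨k, d, by rw [h0], hd, by rw [hk]⟩

lemma step_term_mem {G : PG T} {c c' : List (Symbol T G.N) × G.L} (h : G.Step c c') {a : T}
    (ha : Symbol.terminal a ∈ c.1) : Symbol.terminal a ∈ c'.1 := by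
  obtain ⟨u₁, u₂, hu, hv, -⟩ := h
  rw [hu] at ha
  rw [hv]
  simp only [List.mem_append, List.mem_cons, List.not_mem_nil, or_false] at ha ⊢
  rcases ha with (ha | ha) | ha
  · exact Or.inl (Or.inl ha)
  · cases ha
  · exact Or.inr ha

lemma IsDer.mem_of_rhs {G : PG T} {w : List T} {k : ℕ} {d : ℕ → List (Symbol T G.N) × G.L}
    (h : IsDer G w k d) {j : ℕ} (hj : j < k) {a : T}
    (ha : Symbol.terminal a ∈ G.rhs (d j).2) : a ∈ w := by
  have key : ∀ m, j + 1 + m ≤ k → Symbol.terminal a ∈ (d (j + 1 + m)).1 := by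
    intro m
    induction m with
    | zero =>
      intro _
      obtain ⟨u₁, u₂, -, hv, -⟩ := h.2.1 j hj
      simp [hv, ha]
    | succ m ih =>
      intro hm
      exact step_term_mem (h.2.1 (j + 1 + m) (by omega)) (ih (by omega))
  have := key (k - (j + 1)) (by omega)
  rw [show j + 1 + (k - (j + 1)) = k by omega, h.2.2] at this
  simpa using this

lemma IsDer.last_rhs {G : PG T} (hG : G.Propagating) {w : List T} {k : ℕ}
    {d : ℕ → List (Symbol T G.N) × G.L} (h : IsDer G w k d) {j : ℕ} (hj : j + 1 = k) :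
    ∃ a, Symbol.terminal a ∈ G.rhs (d j).2 := by
  subst hj
  obtain ⟨u₁, u₂, -, hv, -⟩ := h.2.1 j (by omega)
  obtain ⟨s, t, hst⟩ := List.exists_cons_of_ne_nil (hG (d j).2)
  have hs : s ∈ w.map (Symbol.terminal (N := G.N)) := by
    rw [← h.2.2, hv, hst]; simp
  obtain ⟨a, -, rfl⟩ := List.mem_map.1 hs
  exact ⟨a, by rw [hst]; simp⟩

lemma IsDer.pos {G : PG T} {w : List T} {k : ℕ} {d : ℕ → List (Symbol T G.N) × G.L}
    (h : IsDer G w k d) : 0 < k := by
  rcases Nat.eq_zero_or_pos k with rfl | hk
  · exfalso
    have h1 := h.2.2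
    rw [h.1] at h1
    have : Symbol.nonterminal G.start ∈ w.map (Symbol.terminal (N := G.N)) := by
      rw [← h1]; simp
    simp at this
  · exact hk

lemma IsDer.succ_mem {G : PG T} {w : List T} {k : ℕ} {d : ℕ → List (Symbol T G.N) × G.L}
    (h : IsDer G w k d) {j : ℕ} (hj : j < k) : (d (j + 1)).2 ∈ G.succ (d j).2 := by
  obtain ⟨u₁, u₂, -, -, hq⟩ := h.2.1 j hj
  exact hq

lemma step_multiset {G : PG T} {c c' : List (Symbol T G.N) × G.L} (h : G.Step c c') :
    (c'.1 : Multiset (Symbol T G.N)) + {Symbol.nonterminal (G.lhs c.2)} =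
      (c.1 : Multiset (Symbol T G.N)) + (G.rhs c.2 : Multiset (Symbol T G.N)) := by
  obtain ⟨u₁, u₂, hu, hv, -⟩ := h
  rw [hv, hu]
  simp only [← Multiset.coe_add, Multiset.coe_singleton]
  abel

/-- Derivations with the same labels have the same multisets of symbols. -/
lemma same_multiset {G : PG T} {w w' : List T} {k k' : ℕ}
    {d d' : ℕ → List (Symbol T G.N) × G.L} (h : IsDer G w k d) (h' : IsDer G w' k' d')
    (m : ℕ) (hm : m ≤ k) (hm' : m ≤ k') (hl : ∀ j < m, (d j).2 = (d' j).2) :
    ((d m).1 : Multiset (Symbol T G.N)) = (d' m).1 := by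
  induction m with
  | zero => rw [h.1, h'.1]
  | succ m ih =>
    have e := step_multiset (h.2.1 m (by omega))
    have e' := step_multiset (h'.2.1 m (by omega))
    rw [ih (by omega) (by omega) (fun j hj => hl j (by omega)), hl m (by omega), ← e'] at e
    exact add_right_cancel e

lemma same_length_aux {G : PG T} {w w' : List T} {k k' : ℕ}
    {d d' : ℕ → List (Symbol T G.N) × G.L} (h : IsDer G w k d) (h' : IsDer G w' k' d')
    (hk : k ≤ k') (hl : ∀ j < k, (d j).2 = (d' j).2) : w.length = w'.length := by
  have e := same_multiset h h' k le_rfl hk hl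
  rw [h.2.2] at e
  rcases hk.eq_or_lt with rfl | hlt
  · rw [h'.2.2] at e
    have := congrArg Multiset.card e
    simpa using this
  · exfalso
    obtain ⟨u₁, u₂, hu, -, -⟩ := h'.2.1 k hlt
    have : Symbol.nonterminal (G.lhs (d' k).2) ∈
        ((w.map Symbol.terminal : List (Symbol T G.N)) : Multiset (Symbol T G.N)) := by
      rw [e, hu]; simp
    simp at this

/-- The non-deterministic edges used, before the last step, in derivations of powers of `a`. -/
def Used (G : PG T) (a : T) : Set (G.L × G.L) :=
  {e | 2 ≤ (G.succ e.1).card ∧ ∃ w k d j, IsDer G w k d ∧ (∀ b ∈ w, b = a) ∧ j + 1 < k ∧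
    (d j).2 = e.1 ∧ (d (j + 1)).2 = e.2}

lemma used_nontrivial (G : PG T) (a : T) (ha : ∀ k, List.replicate (k + 1) a ∈ G.language) :
    (Used G a).Nontrivial := by
  rw [← Set.not_subsingleton_iff]
  intro hsub
  let _ := G.finL
  choose K D hD using fun k => exists_isDer (ha k)
  have hinj : Function.Injective fun k => (D k 0).2 := by
    intro k k' hkk
    have labels : ∀ j, j < K k → j < K k' → (D k j).2 = (D k' j).2 := by
      intro j
      induction j with
      | zero => intro _ _; exact hkk
      | succ j ih =>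
        intro h1 h2
        have e := ih (by omega) (by omega)
        by_cases hc : 2 ≤ (G.succ (D k j).2).card
        · have m1 : ((D k j).2, (D k (j + 1)).2) ∈ Used G a :=
            ⟨hc, _, _, _, j, hD k, fun b hb => List.eq_of_mem_replicate hb, h1, rfl, rfl⟩
          have m2 : ((D k' j).2, (D k' (j + 1)).2) ∈ Used G a :=
            ⟨by rw [← e]; exact hc, _, _, _, j, hD k',
              fun b hb => List.eq_of_mem_replicate hb, h2, rfl, rfl⟩
          exact (Prod.ext_iff.1 (hsub m1 m2)).2
        · have m1 := (hD k).succ_mem (j := j) (by omega)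
          have m2 := (hD k').succ_mem (j := j) (by omega)
          rw [← e] at m2
          exact Finset.card_le_one.1 (by omega) _ m1 _ m2
    rcases le_total (K k) (K k') with hle | hle
    · have := same_length_aux (hD k) (hD k') hle fun j hj => labels j hj (by omega)
      simpa using this
    · have := same_length_aux (hD k') (hD k) hle fun j hj => (labels j (by omega) hj).symm
      simpa using this.symm
  exact not_injective_infinite_finite _ hinj

lemma exists_exclusive (G : PG T) (hG : G.Propagating) (a : T) (hne : (Used G a).Nonempty) :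
    ∃ e ∈ Used G a, ∀ b, e ∈ Used G b → b = a := by
  classical
  obtain ⟨e₀, hc₀, w, k, d, j₀, hd, hw, hj₀, he₁, -⟩ := hne
  let P : ℕ → Prop := fun j => j + 1 < k ∧ 2 ≤ (G.succ (d j).2).card
  have hP₀ : P j₀ := ⟨hj₀, by rw [he₁]; exact hc₀⟩
  let j := Nat.findGreatest P k
  have hj : P j := Nat.findGreatest_spec (m := j₀) (by omega) hP₀
  have hmax : ∀ i, j < i → i + 1 < k → (G.succ (d i).2).card ≤ 1 := by
    intro i hi hik
    have := Nat.findGreatest_is_greatest (P := P) hi (by omega)
    simp only [P, not_and, not_le] at this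
    have := this hik
    omega
  refine ⟨((d j).2, (d (j + 1)).2), ⟨hj.2, w, k, d, j, hd, hw, hj.1, rfl, rfl⟩, ?_⟩
  rintro b ⟨-, w', k', d', j', hd', hw', hj', -, he⟩
  have follow : ∀ s, j + 1 + s < k → j' + 1 + s < k' →
      (d (j + 1 + s)).2 = (d' (j' + 1 + s)).2 := by
    intro s
    induction s with
    | zero => intro _ _; exact he.symm
    | succ s ih =>
      intro h1 h2
      have e := ih (by omega) (by omega)
      have m1 := hd.succ_mem (j := j + 1 + s) (by omega)
      have m2 := hd'.succ_mem (j := j' + 1 + s) (by omega)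
      rw [← e] at m2
      exact Finset.card_le_one.1 (hmax (j + 1 + s) (by omega) (by omega)) _ m1 _ m2
  have hj1 := hj.1
  obtain ⟨s, hs1, hs2, hs⟩ : ∃ s, j + 1 + s < k ∧ j' + 1 + s < k' ∧
      (j + 1 + s + 1 = k ∨ j' + 1 + s + 1 = k') :=
    ⟨min (k - (j + 2)) (k' - (j' + 2)), by omega, by omega, by omega⟩
  have e := follow s hs1 hs2
  obtain ⟨c, hc⟩ : ∃ c, Symbol.terminal c ∈ G.rhs (d (j + 1 + s)).2 := by
    rcases hs with hs | hs
    · exact hd.last_rhs hG hs
    · rw [e]; exact hd'.last_rhs hG hs
  have h1 := hw c (hd.mem_of_rhs hs1 hc)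
  have h2 := hw' c (hd'.mem_of_rhs hs2 (by rw [← e]; exact hc))
  rw [← h1, ← h2]

/-! ### Lower bound -/

lemma ond_lower {n : ℕ} (hn : 1 ≤ n) (ι : Fin n ↪ T) (G : PG T) (hG : G.Propagating)
    (hL : G.language = wit ι) : n + 1 ≤ G.ond := by
  classical
  let _ := G.finL
  have hnt : ∀ i, (Used G (ι i)).Nontrivial := by
    intro i
    refine used_nontrivial G _ fun k => ?_
    rw [hL]
    exact ⟨by simp, i, fun a ha => List.eq_of_mem_replicate ha⟩
  choose e he hex using fun i => exists_exclusive G hG (ι i) (hnt i).nonempty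
  let i₀ : Fin n := ⟨0, hn⟩
  obtain ⟨e', he', hne⟩ := (hnt i₀).exists_ne (e i₀)
  let E : Finset (Σ _ : G.L, G.L) :=
    (Finset.univ.filter fun r => 2 ≤ (G.succ r).card).sigma fun r => G.succ r
  have hE : E.card = G.ond := by
    rw [Finset.card_sigma, Finset.sum_filter]
    rfl
  have hmem : ∀ a, ∀ x ∈ Used G a, (⟨x.1, x.2⟩ : Σ _ : G.L, G.L) ∈ E := by
    rintro a x ⟨hc, w, k, d, j, hd, -, hj, h1, h2⟩
    simp only [E, Finset.mem_sigma, Finset.mem_filter, Finset.mem_univ, true_and]
    refine ⟨hc, ?_⟩
    rw [← h1, ← h2]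
    exact hd.succ_mem (by omega)
  let f : Option (Fin n) → G.L × G.L := fun o => o.elim e' e
  have hf : Function.Injective f := by
    intro o o' h
    cases o with
    | none =>
      cases o' with
      | none => rfl
      | some i =>
        exfalso
        have h' : e' = e i := h
        have : i₀ = i := ι.injective (hex i _ (by rw [← h']; exact he'))
        exact hne (by rw [h', this])
    | some i =>
      cases o' with
      | none =>
        exfalso
        have h' : e i = e' := h
        have : i₀ = i := ι.injective (hex i _ (by rw [h']; exact he'))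
        exact hne (by rw [← h', this])
      | some i' =>
        have h' : e i = e i' := h
        have : i = i' := ι.injective (hex i' _ (by rw [← h']; exact he i))
        rw [this]
  have hcard : (Finset.univ : Finset (Option (Fin n))).card ≤ E.card := by
    refine Finset.card_le_card_of_injOn (fun o => ⟨(f o).1, (f o).2⟩) ?_ ?_
    · intro o _
      cases o with
      | none => exact hmem _ _ he'
      | some i => exact hmem _ _ (he i)
    · intro o _ o' _ h
      apply hf
      simp only [Sigma.mk.injEq, heq_eq_eq] at h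
      exact Prod.ext h.1 h.2
  rw [hE] at hcard
  simpa using hcard

theorem OND_ssubset {n : ℕ} (hn : 1 ≤ n) (ι : Fin n ↪ T) : OND T n ⊂ OND T (n + 1) := by
  refine ⟨fun K hK => ⟨hK.1, hK.2.trans (Nat.le_succ n)⟩, fun hsub => ?_⟩
  have hmem : n + 1 ∈ {m | ∃ G : PG T, G.Propagating ∧ G.language = wit ι ∧ G.ond = m} :=
    ⟨witG ι, witG_prop ι, witG_language ι, witG_ond hn ι⟩
  have h1 : wit ι ∈ OND T (n + 1) :=
    ⟨⟨witG ι, witG_prop ι, witG_language ι⟩, Nat.sInf_le hmem⟩
  have h2 : ondLang (wit ι) ≤ n := (hsub h1).2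
  obtain ⟨G, hG, hL, hond⟩ := Nat.sInf_mem ⟨_, hmem⟩
  have := ond_lower hn ι G hG hL
  unfold ondLang at h2
  omega

end Pool.Agent.Lib.MP_67c3d0_lc
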