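import Pool.Agent.Lib.MP_67c3d0_lc.Defs

/-!
Every propagating programmed grammar has an equivalent propagating programmed grammar in
one-ND rule normal form.
-/

namespace Pool.Agent.Lib.MP_67c3d0_lc

open Relation

/-- New nonterminals. -/
inductive NewN (C L N : Type) : Type
  | start : NewN C L N
  | car : NewN C L N
  | ctl (c₁ c₂ : C) (r : L) : NewN C L N
  | old (A : N) : NewN C L N
deriving Fintype

set_option synthInstance.maxSize 4096 in
/-- New labels. -/
inductive NewL (C L : Type) : Type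
  | x : NewL C L
  | init (r q : L) (c₁ c₂ : C) : NewL C L
  | single (c : C) : NewL C L
  | g0 (c₁ c₂ : C) (r q : L) : NewL C L
  | a0 (r : L) : NewL C L
  | g1 (c₁ c₂ : C) (r q : L) (c : C) : NewL C L
  | a1 (r : L) : NewL C L
  | g2 (c₁ c₂ : C) (r q : L) (c : C) : NewL C L
  | f1 (c₁ c₂ : C) (r : L) : NewL C L
  | f2 (c : C) : NewL C L
deriving Fintype

variable {T : Type}

/-- Symbols that occur in some right-hand side. -/
def Car (G : PG T) : Type := {s : Symbol T G.N // ∃ r, s ∈ G.rhs r}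

instance (G : PG T) : Finite (Car G) := by
  let _ := G.finL
  have : {s : Symbol T G.N | ∃ r, s ∈ G.rhs r}.Finite := by
    have h : {s : Symbol T G.N | ∃ r, s ∈ G.rhs r} = ⋃ r, {s | s ∈ G.rhs r} := by
      ext s; simp
    rw [h]
    exact Set.finite_iUnion fun r => List.finite_toSet _
  exact this

/-- Reachable configurations. -/
def Reach (G : PG T) (c : List (Symbol T G.N) × G.L) : Prop :=
  ∃ p, ReflTransGen G.Step ([Symbol.nonterminal G.start], p) c

abbrev NN (G : PG T) : Type := NewN (Car G) G.L G.N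
abbrev LL (G : PG T) : Type := NewL (Car G) G.L

def emb (G : PG T) : Symbol T G.N → Symbol T (NN G)
  | Symbol.terminal a => Symbol.terminal a
  | Symbol.nonterminal A => Symbol.nonterminal (NewN.old A)

def newLhs (G : PG T) : LL G → NN G
  | NewL.x => NewN.car
  | NewL.init _ _ _ _ => NewN.start
  | NewL.single _ => NewN.start
  | NewL.g0 c₁ c₂ r _ => NewN.ctl c₁ c₂ r
  | NewL.a0 r => NewN.old (G.lhs r)
  | NewL.g1 c₁ c₂ r _ _ => NewN.ctl c₁ c₂ r
  | NewL.a1 _ => NewN.car
  | NewL.g2 c₁ c₂ r _ _ => NewN.ctl c₁ c₂ r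
  | NewL.f1 c₁ c₂ r => NewN.ctl c₁ c₂ r
  | NewL.f2 _ => NewN.car

/-- The shape of the simulating sentential forms. -/
def form (G : PG T) (mid : List (Symbol T G.N)) (c₁ c₂ : Car G) (r : G.L) :
    List (Symbol T (NN G)) :=
  Symbol.nonterminal NewN.car :: (mid.map (emb G) ++ [Symbol.nonterminal (NewN.ctl c₁ c₂ r)])

def newRhs (G : PG T) : LL G → List (Symbol T (NN G))
  | NewL.x => [Symbol.nonterminal NewN.car]
  | NewL.init r q c₁ c₂ => form G (G.rhs r).tail.dropLast c₁ c₂ q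
  | NewL.single c => [emb G c.1]
  | NewL.g0 c₁ c₂ _ q => [Symbol.nonterminal (NewN.ctl c₁ c₂ q)]
  | NewL.a0 r => (G.rhs r).map (emb G)
  | NewL.g1 _ c₂ _ q c => [Symbol.nonterminal (NewN.ctl c c₂ q)]
  | NewL.a1 r => Symbol.nonterminal NewN.car :: (G.rhs r).tail.map (emb G)
  | NewL.g2 c₁ _ r q c =>
      (G.rhs r).dropLast.map (emb G) ++ [Symbol.nonterminal (NewN.ctl c₁ c q)]
  | NewL.f1 _ c₂ _ => [emb G c₂.1]
  | NewL.f2 c => [emb G c.1]

def IsGuess {C L : Type} : NewL C L → Prop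
  | NewL.g0 _ _ _ _ => True
  | NewL.g1 _ _ _ _ _ => True
  | NewL.g2 _ _ _ _ _ => True
  | NewL.f1 _ _ _ => True
  | _ => False

/-- The validity condition under which a rule other than `x` has its single successor. -/
def Valid (G : PG T) : LL G → Prop
  | NewL.x => True
  | NewL.init r q c₁ c₂ => Reach G ([Symbol.nonterminal (G.lhs r)], r) ∧ q ∈ G.succ r ∧
      G.rhs r = c₁.1 :: ((G.rhs r).tail.dropLast ++ [c₂.1])
  | NewL.single c => ∃ r, Reach G ([c.1], r)
  | NewL.g0 _ _ r q => q ∈ G.succ r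
  | NewL.a0 _ => True
  | NewL.g1 c₁ _ r q c => c₁.1 = Symbol.nonterminal (G.lhs r) ∧ q ∈ G.succ r ∧
      G.rhs r = c.1 :: (G.rhs r).tail
  | NewL.a1 _ => True
  | NewL.g2 _ c₂ r q c => c₂.1 = Symbol.nonterminal (G.lhs r) ∧ q ∈ G.succ r ∧
      G.rhs r = (G.rhs r).dropLast ++ [c.1]
  | NewL.f1 _ _ _ => True
  | NewL.f2 _ => True

/-- The single successor. -/
def nxt {C L : Type} : NewL C L → NewL C L
  | NewL.g0 _ _ r _ => NewL.a0 r
  | NewL.g1 _ _ r _ _ => NewL.a1 r
  | NewL.f1 c₁ _ _ => NewL.f2 c₁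
  | NewL.f2 c => NewL.f2 c
  | _ => NewL.x

@[reducible] noncomputable def finLL (G : PG T) : Fintype (LL G) := by
  letI := G.finL
  letI : Fintype (Car G) := Fintype.ofFinite _
  infer_instance

@[reducible] noncomputable def finNN (G : PG T) : Fintype (NN G) := by
  letI := G.finL
  letI := G.finN
  letI : Fintype (Car G) := Fintype.ofFinite _
  infer_instance

open Classical in
noncomputable def newSucc (G : PG T) (l : LL G) : Finset (LL G) :=
  if l = NewL.x then (@Finset.univ _ (finLL G)).filter IsGuess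
  else if Valid G l then {nxt l} else ∅

/-- The grammar in one-ND rule normal form. -/
@[reducible] noncomputable def nf (G : PG T) : PG T where
  N := NN G
  L := LL G
  finN := finNN G
  finL := finLL G
  start := NewN.start
  lhs := newLhs G
  rhs := newRhs G
  succ := newSucc G

lemma mem_succ_x (G : PG T) (l : LL G) : l ∈ newSucc G NewL.x ↔ IsGuess l := by
  simp [newSucc]

lemma mem_succ_ne (G : PG T) {l : LL G} (hl : l ≠ NewL.x) (l' : LL G) :
    l' ∈ newSucc G l ↔ Valid G l ∧ l' = nxt l := by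
  unfold newSucc
  rw [if_neg hl]
  split_ifs with h <;> simp [h]

lemma nf_oneND (G : PG T) : (nf G).OneND := by
  have key : ∀ l : LL G, 2 ≤ (newSucc G l).card → l = NewL.x := by
    intro l hl
    by_contra h
    unfold newSucc at hl
    rw [if_neg h] at hl
    split_ifs at hl <;> simp at hl
  intro r r' hr hr'
  rw [key r hr, key r' hr']

lemma nf_prop (G : PG T) (hG : G.Propagating) : (nf G).Propagating := by
  intro l
  change newRhs G l ≠ []
  cases l <;> simp [newRhs, form]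
  exact hG _

/-! ### Locating the rewritten symbol -/

lemma emb_ne_car (G : PG T) (s : Symbol T G.N) : emb G s ≠ Symbol.nonterminal NewN.car := by
  cases s <;> simp [emb]

lemma emb_ne_ctl (G : PG T) (s : Symbol T G.N) (c₁ c₂ : Car G) (r : G.L) :
    emb G s ≠ Symbol.nonterminal (NewN.ctl c₁ c₂ r) := by
  cases s <;> simp [emb]

lemma emb_eq_old (G : PG T) (s : Symbol T G.N) (A : G.N)
    (h : emb G s = Symbol.nonterminal (NewN.old A)) : s = Symbol.nonterminal A := by
  cases s with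
  | terminal a => simp [emb] at h
  | nonterminal B => simp [emb] at h; rw [h]

lemma emb_eq_term (G : PG T) (s : Symbol T G.N) (a : T)
    (h : emb G s = Symbol.terminal a) : s = Symbol.terminal a := by
  cases s with
  | terminal a => simpa [emb] using h
  | nonterminal B => simp [emb] at h

lemma car_not_mem_map (G : PG T) (u : List (Symbol T G.N)) :
    Symbol.nonterminal NewN.car ∉ u.map (emb G) := by
  intro h
  obtain ⟨s, -, hs⟩ := List.mem_map.1 h
  exact emb_ne_car G s hs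

lemma ctl_not_mem_map (G : PG T) (u : List (Symbol T G.N)) (c₁ c₂ : Car G) (r : G.L) :
    Symbol.nonterminal (NewN.ctl c₁ c₂ r) ∉ u.map (emb G) := by
  intro h
  obtain ⟨s, -, hs⟩ := List.mem_map.1 h
  exact emb_ne_ctl G s c₁ c₂ r hs

lemma loc_head {α : Type} {a : α} {v u₁ u₂ : List α} (ha : a ∉ v)
    (h : a :: v = u₁ ++ [a] ++ u₂) : u₁ = [] ∧ u₂ = v := by
  cases u₁ with
  | nil => simpa using h.symm
  | cons b u₁ =>
    exfalso
    simp only [List.cons_append, List.cons.injEq] at h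
    apply ha
    rw [h.2]
    simp

lemma loc_last {α : Type} {a b : α} {v u₁ u₂ : List α} (ha : a ∉ v)
    (h : v ++ [b] = u₁ ++ [a] ++ u₂) : u₁ = v ∧ u₂ = [] ∧ a = b := by
  rcases List.eq_nil_or_concat u₂ with rfl | ⟨u₃, c, rfl⟩
  · simp only [List.append_nil] at h
    have := List.append_inj' h rfl
    simp only [List.cons.injEq, and_true] at this
    exact ⟨this.1.symm, rfl, this.2.symm⟩
  · exfalso
    rw [List.concat_eq_append, ← List.append_assoc] at h
    have := List.append_inj' h rfl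
    apply ha
    rw [this.1]
    simp

lemma loc_car (G : PG T) {mid : List (Symbol T G.N)} {c₁ c₂ : Car G} {r : G.L}
    {u₁ u₂ : List (Symbol T (NN G))}
    (h : form G mid c₁ c₂ r = u₁ ++ [Symbol.nonterminal NewN.car] ++ u₂) :
    u₁ = [] ∧ u₂ = mid.map (emb G) ++ [Symbol.nonterminal (NewN.ctl c₁ c₂ r)] := by
  refine loc_head ?_ h
  simp only [List.mem_append, not_or]
  exact ⟨car_not_mem_map G mid, by simp⟩

lemma loc_ctl (G : PG T) {mid : List (Symbol T G.N)} {c₁ c₂ d₁ d₂ : Car G} {r s : G.L}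
    {u₁ u₂ : List (Symbol T (NN G))}
    (h : form G mid c₁ c₂ r = u₁ ++ [Symbol.nonterminal (NewN.ctl d₁ d₂ s)] ++ u₂) :
    u₁ = Symbol.nonterminal NewN.car :: mid.map (emb G) ∧ u₂ = [] ∧
      d₁ = c₁ ∧ d₂ = c₂ ∧ s = r := by
  have h' : (Symbol.nonterminal NewN.car :: mid.map (emb G)) ++
      [Symbol.nonterminal (NewN.ctl c₁ c₂ r)] =
      u₁ ++ [Symbol.nonterminal (NewN.ctl d₁ d₂ s)] ++ u₂ := h
  have := loc_last (by
    simp only [List.mem_cons, not_or]
    exact ⟨by simp, ctl_not_mem_map G mid d₁ d₂ s⟩) h'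
  refine ⟨this.1, this.2.1, ?_⟩
  simpa using this.2.2

lemma loc_old (G : PG T) {mid : List (Symbol T G.N)} {c₁ c₂ : Car G} {r : G.L} {A : G.N}
    {u₁ u₂ : List (Symbol T (NN G))}
    (h : form G mid c₁ c₂ r = u₁ ++ [Symbol.nonterminal (NewN.old A)] ++ u₂) :
    ∃ m₁ m₂, mid = m₁ ++ [Symbol.nonterminal A] ++ m₂ ∧
      u₁ = Symbol.nonterminal NewN.car :: m₁.map (emb G) ∧
      u₂ = m₂.map (emb G) ++ [Symbol.nonterminal (NewN.ctl c₁ c₂ r)] := by
  unfold form at h
  cases u₁ with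
  | nil => simp at h
  | cons b u₁ =>
    simp only [List.cons_append, List.cons.injEq] at h
    obtain ⟨rfl, h⟩ := h
    rcases List.eq_nil_or_concat u₂ with rfl | ⟨u₃, c, rfl⟩
    · exfalso
      simp only [List.append_nil] at h
      have := List.append_inj' h rfl
      simp at this
    · rw [List.concat_eq_append, ← List.append_assoc] at h
      obtain ⟨h1, h2⟩ := List.append_inj' h rfl
      obtain ⟨m, m₂, rfl, h3, rfl⟩ := List.map_eq_append_iff.1 h1
      obtain ⟨m₁, m₃, rfl, rfl, h4⟩ := List.map_eq_append_iff.1 h3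
      obtain ⟨s, rfl, hs⟩ := List.map_eq_singleton_iff.1 h4
      rw [emb_eq_old G s A hs]
      refine ⟨m₁, m₂, rfl, rfl, ?_⟩
      rw [List.concat_eq_append, ← h2]

/-! ### Soundness -/

lemma Reach.step {G : PG T} {c d : List (Symbol T G.N) × G.L} (h : Reach G c)
    (hs : G.Step c d) : Reach G d := by
  obtain ⟨p, hp⟩ := h
  exact ⟨p, hp.tail hs⟩

/-- The invariant of the reachable configurations of the new grammar. -/
def Inv (G : PG T) (u : List (Symbol T (NN G))) (l : LL G) : Prop :=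
  u = [Symbol.nonterminal NewN.start] ∨
  (∃ u₀ r, Reach G (u₀, r) ∧ u = u₀.map (emb G) ∧ newLhs G l = NewN.car) ∨
  (∃ c₁ c₂ mid r, Reach G (c₁.1 :: (mid ++ [c₂.1]), r) ∧ u = form G mid c₁ c₂ r ∧
    (l = NewL.x ∨ IsGuess l)) ∨
  (∃ c₁ c₂ mid r q, Reach G (c₁.1 :: (mid ++ [c₂.1]), r) ∧ q ∈ G.succ r ∧
    u = form G mid c₁ c₂ q ∧ l = NewL.a0 r) ∨
  (∃ c c₂ mid r q, Reach G (Symbol.nonterminal (G.lhs r) :: (mid ++ [c₂.1]), r) ∧
    q ∈ G.succ r ∧ G.rhs r = c.1 :: (G.rhs r).tail ∧ u = form G mid c c₂ q ∧ l = NewL.a1 r) ∨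
  (∃ (c₁ : Car G) (rest : List (Symbol T G.N)) (r : G.L), Reach G (c₁.1 :: rest, r) ∧
    u = Symbol.nonterminal NewN.car :: rest.map (emb G) ∧ l = NewL.f2 c₁)

lemma inv_step (G : PG T) {u v : List (Symbol T (NN G))} {l l' : LL G} (h : Inv G u l)
    (hs : (nf G).Step (u, l) (v, l')) : Inv G v l' := by
  obtain ⟨u₁, u₂, hu, hv, hl⟩ := hs
  change u = u₁ ++ [Symbol.nonterminal (newLhs G l)] ++ u₂ at hu
  change v = u₁ ++ newRhs G l ++ u₂ at hv
  change l' ∈ newSucc G l at hl
  rcases h with h | ⟨u₀, r, hR, h, hc⟩ | ⟨c₁, c₂, mid, r, hR, h, hc⟩ |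
    ⟨c₁, c₂, mid, r, q, hR, hq, h, hc⟩ | ⟨c, c₂, mid, r, q, hR, hq, hrhs, h, hc⟩ |
    ⟨c₁, rest, r, hR, h, hc⟩
  · -- the start
    rw [h] at hu
    have h' : ([] : List (Symbol T (NN G))) ++ [Symbol.nonterminal NewN.start] =
        u₁ ++ [Symbol.nonterminal (newLhs G l)] ++ u₂ := hu
    obtain ⟨rfl, rfl, h3⟩ := loc_last (by simp) h'
    have h4 : newLhs G l = NewN.start := by simpa using h3
    cases l with
    | init r q c₁ c₂ =>
      obtain ⟨⟨hR, hq, hrhs⟩, rfl⟩ := (mem_succ_ne G (by simp) _).1 hl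
      refine Or.inr (Or.inr (Or.inl ⟨c₁, c₂, (G.rhs r).tail.dropLast, q, ?_, ?_, Or.inl rfl⟩))
      · refine hR.step ⟨[], [], by simp, ?_, hq⟩
        simpa using hrhs.symm
      · simpa [newRhs] using hv
    | single c =>
      obtain ⟨⟨r, hR⟩, rfl⟩ := (mem_succ_ne G (by simp) _).1 hl
      exact Or.inr (Or.inl ⟨[c.1], r, hR, by simpa [newRhs] using hv, rfl⟩)
    | _ => simp [newLhs] at h4
  · -- no carrier left
    exfalso
    rw [hc, h] at hu
    apply car_not_mem_map G u₀
    rw [hu]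
    simp
  · -- at the non-deterministic rule, or at a guess
    rw [h] at hu
    rcases hc with rfl | hc
    · obtain ⟨rfl, rfl⟩ := loc_car G hu
      refine Or.inr (Or.inr (Or.inl ⟨c₁, c₂, mid, r, hR, ?_, Or.inr ((mem_succ_x G _).1 hl)⟩))
      simpa [newRhs, form] using hv
    · cases l with
      | g0 d₁ d₂ s q =>
        obtain ⟨rfl, rfl, rfl, rfl, rfl⟩ := loc_ctl G hu
        obtain ⟨hq, rfl⟩ := (mem_succ_ne G (by simp) _).1 hl
        refine Or.inr (Or.inr (Or.inr (Or.inl ⟨d₁, d₂, mid, s, q, hR, hq, ?_, rfl⟩)))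
        simpa [newRhs, form] using hv
      | g1 d₁ d₂ s q c =>
        obtain ⟨rfl, rfl, rfl, rfl, rfl⟩ := loc_ctl G hu
        obtain ⟨⟨h1, hq, h2⟩, rfl⟩ := (mem_succ_ne G (by simp) _).1 hl
        refine Or.inr (Or.inr (Or.inr (Or.inr (Or.inl
          ⟨c, d₂, mid, s, q, by rw [← h1]; exact hR, hq, h2, ?_, rfl⟩))))
        simpa [newRhs, form] using hv
      | g2 d₁ d₂ s q c =>
        obtain ⟨rfl, rfl, rfl, rfl, rfl⟩ := loc_ctl G hu
        obtain ⟨⟨h1, hq, h2⟩, rfl⟩ := (mem_succ_ne G (by simp) _).1 hl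
        refine Or.inr (Or.inr (Or.inl
          ⟨d₁, c, mid ++ (G.rhs s).dropLast, q, ?_, ?_, Or.inl rfl⟩))
        · refine hR.step ⟨d₁.1 :: mid, [], by simp [h1], ?_, hq⟩
          simp only [List.append_assoc, List.cons_append, List.append_nil]
          rw [← h2]
        · simpa [newRhs, form] using hv
      | f1 d₁ d₂ s =>
        obtain ⟨rfl, rfl, rfl, rfl, rfl⟩ := loc_ctl G hu
        obtain ⟨-, rfl⟩ := (mem_succ_ne G (by simp) _).1 hl
        refine Or.inr (Or.inr (Or.inr (Or.inr (Or.inr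
          ⟨d₁, mid ++ [d₂.1], s, hR, ?_, rfl⟩))))
        simpa [newRhs] using hv
      | _ => simp [IsGuess] at hc
  · -- rewriting an unmarked symbol
    subst hc
    rw [h] at hu
    obtain ⟨m₁, m₂, rfl, rfl, rfl⟩ := loc_old G hu
    obtain ⟨-, rfl⟩ := (mem_succ_ne G (by simp) _).1 hl
    refine Or.inr (Or.inr (Or.inl ⟨c₁, c₂, m₁ ++ G.rhs r ++ m₂, q, ?_, ?_, Or.inl rfl⟩))
    · exact hR.step ⟨c₁.1 :: m₁, m₂ ++ [c₂.1], by simp, by simp, hq⟩
    · simpa [newRhs, form] using hv
  · -- rewriting the first symbol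
    subst hc
    rw [h] at hu
    obtain ⟨rfl, rfl⟩ := loc_car G hu
    obtain ⟨-, rfl⟩ := (mem_succ_ne G (by simp) _).1 hl
    refine Or.inr (Or.inr (Or.inl ⟨c, c₂, (G.rhs r).tail ++ mid, q, ?_, ?_, Or.inl rfl⟩))
    · refine hR.step ⟨[], mid ++ [c₂.1], by simp, ?_, hq⟩
      simp only [List.append_assoc, List.nil_append]
      rw [← List.cons_append, ← hrhs]
    · simpa [newRhs, form] using hv
  · -- the last step
    subst hc
    rw [h] at hu
    obtain ⟨rfl, rfl⟩ := loc_head (car_not_mem_map G rest) hu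
    obtain ⟨-, rfl⟩ := (mem_succ_ne G (by simp) _).1 hl
    exact Or.inr (Or.inl ⟨c₁.1 :: rest, r, hR, by simpa [newRhs] using hv, rfl⟩)

lemma inv_of_reach (G : PG T) {p : LL G} {c : List (Symbol T (NN G)) × LL G}
    (h : ReflTransGen (nf G).Step ([Symbol.nonterminal NewN.start], p) c) : Inv G c.1 c.2 := by
  induction h with
  | refl => exact Or.inl rfl
  | tail _ hs ih => exact inv_step G ih hs

lemma map_emb_eq_term (G : PG T) (u : List (Symbol T G.N)) (w : List T)
    (h : w.map Symbol.terminal = u.map (emb G)) : u = w.map Symbol.terminal := by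
  induction w generalizing u with
  | nil => simpa using h.symm
  | cons a w ih =>
    cases u with
    | nil => simp at h
    | cons s u =>
      simp only [List.map_cons, List.cons.injEq] at h ⊢
      exact ⟨emb_eq_term G s a h.1.symm, ih u h.2⟩

lemma nf_sound (G : PG T) : (nf G).language ⊆ G.language := by
  rintro w ⟨p, q, h⟩
  have hi : Inv G (w.map Symbol.terminal) q := inv_of_reach G h
  have hcar : Symbol.nonterminal NewN.car ∉ w.map (Symbol.terminal (N := NN G)) := by simp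
  rcases hi with h | ⟨u₀, r, hR, h, hc⟩ | ⟨c₁, c₂, mid, r, hR, h, hc⟩ |
    ⟨c₁, c₂, mid, r, q, hR, hq, h, hc⟩ | ⟨c, c₂, mid, r, q, hR, hq, hrhs, h, hc⟩ |
    ⟨c₁, rest, r, hR, h, hc⟩
  · exfalso
    have : Symbol.nonterminal NewN.start ∈ w.map (Symbol.terminal (N := NN G)) := by
      rw [h]; simp
    simp at this
  · obtain ⟨p, hp⟩ := hR
    rw [map_emb_eq_term G u₀ w h] at hp
    exact ⟨p, r, hp⟩
  all_goals exact absurd (by rw [h]; simp [form]) hcar

/-! ### Completeness -/

lemma step_ne (G : PG T) {l : LL G} (hl : l ≠ NewL.x) (hv : Valid G l)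
    (u₁ u₂ : List (Symbol T (NN G))) :
    (nf G).Step (u₁ ++ [Symbol.nonterminal (newLhs G l)] ++ u₂, l)
      (u₁ ++ newRhs G l ++ u₂, nxt l) :=
  ⟨u₁, u₂, rfl, rfl, (mem_succ_ne G hl _).2 ⟨hv, rfl⟩⟩

lemma step_x (G : PG T) {l : LL G} (hl : IsGuess l) (mid : List (Symbol T G.N))
    (c₁ c₂ : Car G) (r : G.L) :
    (nf G).Step (form G mid c₁ c₂ r, NewL.x) (form G mid c₁ c₂ r, l) :=
  ⟨[], mid.map (emb G) ++ [Symbol.nonterminal (NewN.ctl c₁ c₂ r)], rfl, rfl,
    (mem_succ_x G _).2 hl⟩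

lemma step_congr (G : PG T) {u u' v v' : List (Symbol T (NN G))} {l l' : LL G}
    (h : (nf G).Step (u, l) (v, l')) (hu : u' = u) (hv : v' = v) :
    (nf G).Step (u', l) (v', l') := by
  rw [hu, hv]; exact h

/-- The simulation. -/
def Sim (G : PG T) (u : List (Symbol T G.N)) (r : G.L) : Prop :=
  u = [Symbol.nonterminal G.start] ∨ (∃ c : Car G, u = [c.1]) ∨
  ∃ (c₁ c₂ : Car G) (mid : List (Symbol T G.N)), u = c₁.1 :: (mid ++ [c₂.1]) ∧
    Reach (nf G) (form G mid c₁ c₂ r, NewL.x)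

lemma sim_short (G : PG T) (hG : G.Propagating) {r q : G.L}
    (hR : Reach G ([Symbol.nonterminal (G.lhs r)], r)) (hq : q ∈ G.succ r) :
    Sim G (G.rhs r) q := by
  obtain ⟨a, t, hat⟩ := List.exists_cons_of_ne_nil (hG r)
  rcases List.eq_nil_or_concat t with rfl | ⟨m, b, rfl⟩
  · exact Or.inr (Or.inl ⟨⟨a, r, by rw [hat]; simp⟩, hat⟩)
  · rw [List.concat_eq_append] at hat
    let c₁ : Car G := ⟨a, r, by rw [hat]; simp⟩
    let c₂ : Car G := ⟨b, r, by rw [hat]; simp⟩
    refine Or.inr (Or.inr ⟨c₁, c₂, m, hat, NewL.init r q c₁ c₂, ReflTransGen.single ?_⟩)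
    have hm : (G.rhs r).tail.dropLast = m := by rw [hat]; simp
    have hv : Valid G (NewL.init r q c₁ c₂) := ⟨hR, hq, by rw [hm]; exact hat⟩
    refine step_congr G (step_ne G (l := NewL.init r q c₁ c₂) (by simp) hv [] []) rfl ?_
    simp [newRhs, hm]

lemma sim_step (G : PG T) (hG : G.Propagating) {u v : List (Symbol T G.N)} {r q : G.L}
    (hR : Reach G (u, r)) (h : Sim G u r) (hs : G.Step (u, r) (v, q)) : Sim G v q := by
  obtain ⟨u₁, u₂, hu, hv, hq⟩ := hs
  change u = u₁ ++ [Symbol.nonterminal (G.lhs r)] ++ u₂ at hu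
  change v = u₁ ++ G.rhs r ++ u₂ at hv
  change q ∈ G.succ r at hq
  have short : ∀ s, u = [s] → Sim G v q := by
    intro s hs
    have h' : ([] : List (Symbol T G.N)) ++ [s] =
        u₁ ++ [Symbol.nonterminal (G.lhs r)] ++ u₂ := by rw [← hu, hs]; rfl
    obtain ⟨rfl, rfl, h3⟩ := loc_last (by simp) h'
    have hv' : v = G.rhs r := by simpa using hv
    rw [hv']
    refine sim_short G hG ?_ hq
    rw [h3, ← hs]; exact hR
  rcases h with h | ⟨c, h⟩ | ⟨c₁, c₂, mid, h, hN⟩
  · exact short _ h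
  · exact short _ h
  rw [h] at hu
  cases u₁ with
  | nil =>
    simp only [List.nil_append, List.cons_append, List.cons.injEq] at hu
    obtain ⟨h1, rfl⟩ := hu
    obtain ⟨a, t, hat⟩ := List.exists_cons_of_ne_nil (hG r)
    let c : Car G := ⟨a, r, by rw [hat]; simp⟩
    have ht : (G.rhs r).tail = t := by rw [hat]; rfl
    refine Or.inr (Or.inr ⟨c, c₂, t ++ mid, by rw [hv, hat]; simp [c], ?_⟩)
    have s1 := step_x G (l := NewL.g1 c₁ c₂ r q c) trivial mid c₁ c₂ r
    have s2 := step_ne G (l := NewL.g1 c₁ c₂ r q c) (by simp) ⟨h1, hq, by rw [ht]; exact hat⟩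
      (Symbol.nonterminal NewN.car :: mid.map (emb G)) []
    have s3 := step_ne G (l := NewL.a1 r) (by simp) trivial []
      (mid.map (emb G) ++ [Symbol.nonterminal (NewN.ctl c c₂ q)])
    refine ((hN.step s1).step (step_congr G s2 ?_ rfl)).step (step_congr G s3 ?_ ?_)
    · simp [form, newLhs]
    · simp [newLhs, newRhs]
    · simp [form, newRhs, ht]
  | cons s u₁ =>
    simp only [List.cons_append, List.cons.injEq] at hu
    obtain ⟨rfl, hu⟩ := hu
    rcases List.eq_nil_or_concat u₂ with rfl | ⟨u₃, b, rfl⟩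
    · simp only [List.append_nil] at hu
      obtain ⟨rfl, h2⟩ := List.append_inj' hu rfl
      have h1 : c₂.1 = Symbol.nonterminal (G.lhs r) := by simpa using h2
      obtain ⟨t, a, hat⟩ := (List.eq_nil_or_concat (G.rhs r)).resolve_left (hG r)
      rw [List.concat_eq_append] at hat
      let c : Car G := ⟨a, r, by rw [hat]; simp⟩
      have ht : (G.rhs r).dropLast = t := by rw [hat]; simp
      refine Or.inr (Or.inr ⟨c₁, c, mid ++ t, by rw [hv, hat]; simp [c], ?_⟩)
      have s1 := step_x G (l := NewL.g2 c₁ c₂ r q c) trivial mid c₁ c₂ r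
      have s2 := step_ne G (l := NewL.g2 c₁ c₂ r q c) (by simp) ⟨h1, hq, by rw [ht]; exact hat⟩
        (Symbol.nonterminal NewN.car :: mid.map (emb G)) []
      refine (hN.step s1).step (step_congr G s2 ?_ ?_)
      · simp [form, newLhs]
      · simp [form, newRhs, ht]
    · rw [List.concat_eq_append, ← List.append_assoc] at hu
      obtain ⟨rfl, h2⟩ := List.append_inj' hu rfl
      have h1 : c₂.1 = b := by simpa using h2
      refine Or.inr (Or.inr ⟨c₁, c₂, u₁ ++ G.rhs r ++ u₃, by rw [hv, h1]; simp, ?_⟩)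
      have s1 := step_x G (l := NewL.g0 c₁ c₂ r q) trivial
        (u₁ ++ [Symbol.nonterminal (G.lhs r)] ++ u₃) c₁ c₂ r
      have s2 := step_ne G (l := NewL.g0 c₁ c₂ r q) (by simp) hq
        (Symbol.nonterminal NewN.car ::
          (u₁ ++ [Symbol.nonterminal (G.lhs r)] ++ u₃).map (emb G)) []
      have s3 := step_ne G (l := NewL.a0 r) (by simp) trivial
        (Symbol.nonterminal NewN.car :: u₁.map (emb G))
        (u₃.map (emb G) ++ [Symbol.nonterminal (NewN.ctl c₁ c₂ q)])
      refine ((hN.step s1).step (step_congr G s2 ?_ rfl)).step (step_congr G s3 ?_ ?_)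
      · simp [form, newLhs]
      · simp [newLhs, newRhs, emb]
      · simp [form, newRhs]

lemma sim_of_reach (G : PG T) (hG : G.Propagating) {p : G.L} {c : List (Symbol T G.N) × G.L}
    (h : ReflTransGen G.Step ([Symbol.nonterminal G.start], p) c) : Sim G c.1 c.2 := by
  induction h with
  | refl => exact Or.inl rfl
  | tail h hs ih => exact sim_step G hG ⟨p, h⟩ ih hs

lemma map_emb_term (G : PG T) (w : List T) :
    (w.map Symbol.terminal).map (emb G) = w.map Symbol.terminal := by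
  induction w with
  | nil => rfl
  | cons a w ih => simp only [List.map_cons, ih]; rfl

lemma nf_complete (G : PG T) (hG : G.Propagating) : G.language ⊆ (nf G).language := by
  rintro w ⟨p, q, h⟩
  have hs : Sim G (w.map Symbol.terminal) q := sim_of_reach G hG h
  have goal : ∀ l, Reach (nf G) ((w.map Symbol.terminal).map (emb G), l) →
      w ∈ (nf G).language := by
    rintro l ⟨p', hp'⟩
    rw [map_emb_term] at hp'
    exact ⟨p', l, hp'⟩
  rcases hs with h1 | ⟨c, h1⟩ | ⟨c₁, c₂, mid, h1, hN⟩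
  · exfalso
    have : Symbol.nonterminal G.start ∈ w.map (Symbol.terminal (N := G.N)) := by
      rw [h1]; simp
    simp at this
  · refine goal NewL.x ⟨NewL.single c, ReflTransGen.single ?_⟩
    have hv : Valid G (NewL.single c) := ⟨q, p, by rw [← h1]; exact h⟩
    refine step_congr G (step_ne G (l := NewL.single c) (by simp) hv [] []) rfl ?_
    rw [h1]; simp [newRhs]
  · refine goal (NewL.f2 c₁) ?_
    have s1 := step_x G (l := NewL.f1 c₁ c₂ q) trivial mid c₁ c₂ q
    have s2 := step_ne G (l := NewL.f1 c₁ c₂ q) (by simp) trivial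
      (Symbol.nonterminal NewN.car :: mid.map (emb G)) []
    have s3 := step_ne G (l := NewL.f2 c₁) (by simp) trivial []
      (mid.map (emb G) ++ [emb G c₂.1])
    refine ((hN.step s1).step (step_congr G s2 ?_ rfl)).step (step_congr G s3 ?_ ?_)
    · simp [form, newLhs]
    · simp [newLhs, newRhs]
    · rw [h1]; simp [newRhs]

theorem exists_oneND (G : PG T) (hG : G.Propagating) :
    ∃ G' : PG T, G'.Propagating ∧ G'.OneND ∧ G'.language = G.language :=
  ⟨nf G, nf_prop G hG, nf_oneND G, Set.Subset.antisymm (nf_sound G) (nf_complete G hG)⟩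

end Pool.Agent.Lib.MP_67c3d0_lc
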